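import Pool.Agent.H.MP_82e23a_gt.Fin

set_option autoImplicit false

namespace Pool.Agent.Results.MP_82e23a_gt.UniversalFamilies

open Set Filter Topology
open Pool.Agent.H.MP_82e23a_gt (Code Cov Ref isCompact_K main_res count chainable_K)

/-- The plane. -/
abbrev Plane : Type := EuclideanSpace ℝ (Fin 2)

/-- A metric space is a *chainable continuum* if it is compact, connected and nonempty, and for
every `ε > 0` it is covered by finitely many open sets `U 0, …, U (n-1)` of diameter `< ε` such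
that `U i` and `U j` meet exactly when `|i - j| ≤ 1`. -/
def IsChainableContinuum (X : Type*) [MetricSpace X] : Prop :=
  CompactSpace X ∧ ConnectedSpace X ∧
    ∀ ε : ℝ, 0 < ε → ∃ (n : ℕ) (U : Fin n → Set X), (∀ i, IsOpen (U i)) ∧ (⋃ i, U i) = univ ∧
      (∀ i j : Fin n, (U i ∩ U j).Nonempty ↔
        ((i : ℕ) ≤ (j : ℕ) + 1 ∧ (j : ℕ) ≤ (i : ℕ) + 1)) ∧
      ∀ i, Metric.diam (U i) < ε

/-- A compact set `F` of the plane has *fine linear covers* if for every `ε > 0` it is covered by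
finitely many open sets `W 0, …, W (n-1)` whose traces on `F` have diameter `< ε` and are disjoint
whenever `|i - j| ≥ 2`. (`F` need not be connected and neighbouring traces need not meet.) -/
def HasFineLinearCovers (F : Set Plane) : Prop :=
  IsCompact F ∧ ∀ ε : ℝ, 0 < ε → ∃ (n : ℕ) (W : Fin n → Set Plane), (∀ i, IsOpen (W i)) ∧
    F ⊆ ⋃ i, W i ∧
    (∀ i j : Fin n, (F ∩ W i ∩ W j).Nonempty →
      ((i : ℕ) ≤ (j : ℕ) + 1 ∧ (j : ℕ) ≤ (i : ℕ) + 1)) ∧
    ∀ i, Metric.diam (F ∩ W i) < ε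

/-- `K` is mapped into `F` by a homeomorphism between two open subsets of the plane, the first of
which contains `K`. (Every homeomorphism of the plane onto itself is such a homeomorphism.) -/
def LocallyEmbeds (K F : Set Plane) : Prop :=
  ∃ h : OpenPartialHomeomorph Plane Plane, K ⊆ h.source ∧ h '' K ⊆ F

theorem linear_of_chainable {M : Set Plane} (hM : IsChainableContinuum M) :
    HasFineLinearCovers M := by
  obtain ⟨hc, -, hU⟩ := hM
  refine ⟨isCompact_iff_compactSpace.2 hc, fun ε hε => ?_⟩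
  obtain ⟨n, U, h1, h2, h3, h4⟩ := hU ε hε
  choose W hWo hW using fun i => isOpen_induced_iff.1 (h1 i)
  have hval : ∀ i, M ∩ W i = Subtype.val '' (U i) := by
    intro i
    rw [← hW i]
    exact (Subtype.image_preimage_coe M (W i)).symm
  refine ⟨n, W, hWo, ?_, ?_, ?_⟩
  · intro p hp
    have : (⟨p, hp⟩ : M) ∈ ⋃ i, U i := by rw [h2]; trivial
    obtain ⟨i, hi⟩ := mem_iUnion.1 this
    rw [← hW i] at hi
    exact mem_iUnion.2 ⟨i, hi⟩
  · rintro i j ⟨p, ⟨hp, hi⟩, hj⟩
    refine (h3 i j).1 ⟨⟨p, hp⟩, ?_, ?_⟩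
    · rw [← hW i]; exact hi
    · rw [← hW j]; exact hj
  · intro i
    rw [hval i]
    have := (isometry_subtype_coe (s := M)).diam_image (U i)
    rw [this]
    exact h4 i

theorem chainable_of_old {M : Set Plane} (hM : Pool.Agent.H.MP_82e23a_gt.Chainable M) :
    IsChainableContinuum M := by
  obtain ⟨hc, hconn, hU⟩ := hM
  refine ⟨isCompact_iff_compactSpace.1 hc, isConnected_iff_connectedSpace.1 hconn,
    fun ε hε => ?_⟩
  obtain ⟨n, U, h1, h2, h3, h4⟩ := hU ε hε
  refine ⟨n, fun i => Subtype.val ⁻¹' (U i), fun i => (h1 i).preimage continuous_subtype_val,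
    ?_, ?_, ?_⟩
  · ext p
    simp only [mem_univ, iff_true]
    obtain ⟨i, hi⟩ := mem_iUnion.1 (h2 p.2)
    exact mem_iUnion.2 ⟨i, hi⟩
  · intro i j
    rw [← h3 i j]
    constructor
    · rintro ⟨p, hi, hj⟩
      exact ⟨p, ⟨p.2, hi⟩, hj⟩
    · rintro ⟨p, ⟨hp, hi⟩, hj⟩
      exact ⟨⟨p, hp⟩, hi, hj⟩
  · intro i
    have := (isometry_subtype_coe (s := M)).diam_image (Subtype.val ⁻¹' (U i))
    rw [Subtype.image_preimage_coe] at this
    rw [← this]
    exact h4 i

theorem covers {M : Set Plane} (hM : HasFineLinearCovers M) (ε : ℝ) (hε : 0 < ε) :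
    ∃ (m : ℕ) (W : ℕ → Set Plane) (δ : ℝ), 0 < δ ∧ (∀ i, IsOpen (W i)) ∧
      (∀ p ∈ M, ∀ i j, p ∈ W i → p ∈ W j → j ≤ i + 1) ∧ (∀ i, m ≤ i → W i = ∅) ∧
      (∀ i, ∀ p ∈ M, ∀ q ∈ M, p ∈ W i → q ∈ W i → dist p q < ε) ∧
      (∀ p ∈ M, ∃ i, Metric.ball p δ ⊆ W i) := by
  obtain ⟨hc, hch⟩ := hM
  obtain ⟨m, U, h1, h2, h3, h4⟩ := hch ε hε
  let W : ℕ → Set Plane := fun i => if hi : i < m then U ⟨i, hi⟩ else ∅
  have hW : ∀ (i : ℕ) (p : Plane), p ∈ W i → ∃ hi : i < m, p ∈ U ⟨i, hi⟩ := by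
    intro i p hp
    by_cases hi : i < m
    · refine ⟨hi, ?_⟩
      simpa only [W, dif_pos hi] using hp
    · exfalso
      simp only [W, dif_neg hi] at hp
      exact hp
  have hWo : ∀ i, IsOpen (W i) := by
    intro i
    by_cases hi : i < m
    · simp only [W, dif_pos hi]; exact h1 _
    · simp only [W, dif_neg hi]; exact isOpen_empty
  obtain ⟨δ, hδ, hleb⟩ := lebesgue_number_lemma_of_metric (s := M) (c := W) hc hWo (by
    intro p hp
    obtain ⟨i, hi⟩ := mem_iUnion.1 (h2 hp)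
    refine mem_iUnion.2 ⟨i, ?_⟩
    simp only [W, dif_pos i.2]
    exact hi)
  refine ⟨m, W, δ, hδ, hWo, ?_, ?_, ?_, hleb⟩
  · intro p hp i j hi hj
    obtain ⟨a, ha⟩ := hW i p hi
    obtain ⟨b, hb⟩ := hW j p hj
    exact (h3 ⟨i, a⟩ ⟨j, b⟩ ⟨p, ⟨hp, ha⟩, hb⟩).2
  · intro i hi
    simp only [W, dif_neg (not_lt.2 hi)]
  · intro i p hp q hq hpi hqi
    obtain ⟨a, ha⟩ := hW i p hpi
    obtain ⟨b, hb⟩ := hW i q hqi
    refine lt_of_le_of_lt ?_ (h4 ⟨i, a⟩)
    exact Metric.dist_le_diam_of_mem (hc.isBounded.subset inter_subset_left) ⟨hp, ha⟩ ⟨hq, hb⟩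

/-- The chainable continuum attached to a function `n : ℕ → ℕ`. -/
noncomputable def cont (n : ℕ → ℕ) : Set Plane :=
  Pool.Agent.H.MP_82e23a_gt.T.symm '' Pool.Agent.H.MP_82e23a_gt.K n

/-- The bound: a local embedding of `cont n` into `F` bounds `n` almost everywhere. -/
theorem bound {F : Set Plane} (hF : HasFineLinearCovers F) :
    ∃ φ : ℕ → ℕ, ∀ n : ℕ → ℕ, LocallyEmbeds (cont n) F → ∀ᶠ l in atTop, n l < φ l := by
  have hcov := covers hF
  choose! m W δ hδ hWo hWf hWe hWs hWb using hcov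
  let e : ℕ → ℝ := fun k => Nat.rec 1 (fun k e => min (δ e) (1 / ((k : ℝ) + 2))) k
  have e0 : e 0 = 1 := rfl
  have es : ∀ k, e (k + 1) = min (δ (e k)) (1 / ((k : ℝ) + 2)) := fun k => rfl
  have hepos : ∀ k, 0 < e k := by
    intro k
    induction k with
    | zero => rw [e0]; exact one_pos
    | succ k ih => rw [es]; exact lt_min (hδ _ ih) (by positivity)
  have hele : ∀ k, e k ≤ 1 / ((k : ℝ) + 1) := by
    intro k
    cases k with
    | zero => rw [e0]; norm_num
    | succ k =>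
      rw [es]
      refine (min_le_right _ _).trans (le_of_eq ?_)
      push_cast
      ring
  have heδ : ∀ k, e (k + 1) ≤ δ (e k) := fun k => by rw [es]; exact min_le_left _ _
  clear_value e
  refine ⟨fun l => (Finset.range (2 * l + 2)).sup fun k => m (e k), ?_⟩
  rintro n ⟨e', he', hh⟩
  let g : OpenPartialHomeomorph (ℝ × ℝ) Plane :=
    Pool.Agent.H.MP_82e23a_gt.T.symm.toHomeomorph.toOpenPartialHomeomorph.trans e'
  set K := Pool.Agent.H.MP_82e23a_gt.K n with hKdef
  have hgs : K ⊆ g.source := by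
    intro p hp
    change p ∈ univ ∩ _
    exact ⟨trivial, he' ⟨p, hp, rfl⟩⟩
  have hg : ∀ p ∈ K, g p ∈ F := fun p hp => hh ⟨_, ⟨p, hp, rfl⟩, rfl⟩
  clear_value g
  have hKc : IsCompact K := isCompact_K
  -- uniform continuity of the inverse near the image
  have hCc : IsCompact (g '' K) := hKc.image_of_continuousOn (g.continuousOn.mono hgs)
  have hCt : g '' K ⊆ g.target := by
    rintro _ ⟨p, hp, rfl⟩
    exact g.map_source (hgs hp)
  obtain ⟨r0, hr0, hr0t⟩ := hCc.exists_cthickening_subset_open g.open_target hCt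
  have huc := hCc.cthickening.uniformContinuousOn_of_continuous (f := g.symm)
    (g.symm.continuousOn.mono hr0t)
  obtain ⟨η, hη, huc⟩ := Metric.uniformContinuousOn_iff.1 huc (1 / 8) (by norm_num)
  obtain ⟨k0, hk0⟩ := exists_nat_one_div_lt (lt_min hη hr0)
  have hek : ∀ k, e (k0 + k) < min η r0 := by
    intro k
    refine (hele _).trans_lt (lt_of_le_of_lt ?_ hk0)
    apply one_div_le_one_div_of_le (by positivity)
    push_cast
    linarith [Nat.cast_nonneg (α := ℝ) k]
  have hth : ∀ y : Plane, ∀ q ∈ K, dist y (g q) < min η r0 →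
      y ∈ Metric.cthickening r0 (g '' K) := by
    intro y q hq hy
    exact Metric.mem_cthickening_of_dist_le y (g q) r0 _ (mem_image_of_mem _ hq)
      (hy.trans_le (min_le_right _ _)).le
  have hclose : ∀ y : Plane, ∀ q ∈ K, dist y (g q) < min η r0 → dist (g.symm y) q < 1 / 8 := by
    intro y q hq hy
    have h1 := hth y q hq hy
    have h2 : g q ∈ Metric.cthickening r0 (g '' K) :=
      Metric.self_subset_cthickening _ (mem_image_of_mem _ hq)
    have := huc y h1 (g q) h2 (hy.trans_le (min_le_left _ _))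
    rwa [g.left_inv (hgs hq)] at this
  let V : ℕ → ℕ → Set (ℝ × ℝ) := fun k i => g.source ∩ g ⁻¹' (W (e (k0 + k)) i)
  have hC : ∀ k, Cov n (V k) := by
    intro k
    have hp := hepos (k0 + k)
    refine ⟨fun i => g.isOpen_inter_preimage (hWo _ hp i), fun p hpK => ?_,
      fun p hpK i j hi hj => ?_, fun i p hpK q hqK hi hj => ?_⟩
    · obtain ⟨i, hi⟩ := hWb _ hp (g p) (hg p hpK)
      exact ⟨i, hgs hpK, hi (Metric.mem_ball_self (hδ _ hp))⟩
    · exact hWf _ hp (g p) (hg p hpK) i j hi.2 hj.2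
    · have h1 := hclose (g p) q hqK
        ((hWs _ hp i (g p) (hg p hpK) (g q) (hg q hqK) hi.2 hj.2).trans (hek k))
      rwa [g.left_inv (hgs hpK)] at h1
  have hR : ∀ k, Ref n (V (k + 1)) (V k) := by
    intro k i' p hpK q hqK hi hj
    have hp1 := hepos (k0 + k)
    have hp2 := hepos (k0 + (k + 1))
    obtain ⟨i, hi0⟩ := hWb _ hp1 (g q) (hg q hqK)
    have hball : ∀ y ∈ Metric.ball (g q) (e (k0 + (k + 1))), y ∈ g.target := by
      intro y hy
      exact hr0t (hth y q hqK ((Metric.mem_ball.1 hy).trans (hek (k + 1))))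
    refine ⟨i, g.symm '' (Metric.ball (g q) (e (k0 + (k + 1)))), ?_, ?_, ?_, ?_, ?_⟩
    · exact (convex_ball _ _).isPreconnected.image _
        (g.symm.continuousOn.mono fun y hy => hball y hy)
    · exact ⟨g p, Metric.mem_ball.2 (hWs _ hp2 i' (g p) (hg p hpK) (g q) (hg q hqK) hi.2 hj.2),
        g.left_inv (hgs hpK)⟩
    · exact ⟨g q, Metric.mem_ball_self hp2, g.left_inv (hgs hqK)⟩
    · rintro _ ⟨y, hy, rfl⟩
      refine ⟨g.map_target (hball y hy), ?_⟩
      rw [mem_preimage, g.right_inv (hball y hy)]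
      exact hi0 (Metric.ball_subset_ball (heδ (k0 + k)) hy)
    · rintro _ ⟨y, hy, rfl⟩
      exact hclose y q hqK ((Metric.mem_ball.1 hy).trans (hek (k + 1)))
  filter_upwards [eventually_ge_atTop k0] with l hl
  have hL := main_res V hC hR l
  have hcnt := count (hC (l + 1)) hL (m (e (k0 + (l + 1)))) (fun i hi => by
    change g.source ∩ g ⁻¹' (W (e (k0 + (l + 1))) i) = ∅
    rw [hWe _ (hepos _) i hi, preimage_empty, inter_empty])
  refine lt_of_lt_of_le hcnt ?_
  exact Finset.le_sup (f := fun k => m (e k)) (Finset.mem_range.2 (by omega))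

theorem locallyEmbeds_of_homeomorph {K F : Set Plane} (h : Plane ≃ₜ Plane) (hh : h '' K ⊆ F) :
    LocallyEmbeds K F :=
  ⟨h.toOpenPartialHomeomorph, subset_univ _, hh⟩

/-- **No chainable continuum of the plane is ambiently universal**, with a lower bound for the
size of universal families.

* Clause 1: there is no chainable continuum `M` in the plane such that every chainable continuum
  `K` of the plane is mapped into `M` by a homeomorphism of the plane.
* Clause 2: if a family of chainable continua of the plane is such that every chainable continuum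
  `K` of the plane is mapped into one of its members by a homeomorphism between open subsets of
  the plane, the first containing `K`, then the family is uncountable and it indexes a family of
  functions that dominates every `n : ℕ → ℕ`. -/
theorem result :
    (¬ ∃ M : Set Plane, IsChainableContinuum M ∧ ∀ K : Set Plane, IsChainableContinuum K →
      ∃ h : Plane ≃ₜ Plane, h '' K ⊆ M) ∧
    ∀ (ι : Type) (M : ι → Set Plane), (∀ i, IsChainableContinuum (M i)) →
      (∀ K : Set Plane, IsChainableContinuum K → ∃ i, LocallyEmbeds K (M i)) →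
      Uncountable ι ∧ ∃ φ : ι → ℕ → ℕ, ∀ n : ℕ → ℕ, ∃ i, ∀ᶠ l in atTop, n l < φ i l := by
  have hdom : ∀ (ι : Type) (F : ι → Set Plane), (∀ i, HasFineLinearCovers (F i)) →
      (∀ K : Set Plane, IsChainableContinuum K → ∃ i, LocallyEmbeds K (F i)) →
      ∃ φ : ι → ℕ → ℕ, ∀ n : ℕ → ℕ, ∃ i, ∀ᶠ l in atTop, n l < φ i l := by
    intro ι F hF hU
    choose φ hφ using fun i => bound (hF i)
    refine ⟨φ, fun n => ?_⟩
    obtain ⟨i, hi⟩ := hU (cont n) (chainable_of_old (chainable_K n))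
    exact ⟨i, hφ i n hi⟩
  have hunc : ∀ (ι : Type) (φ : ι → ℕ → ℕ), (∀ n : ℕ → ℕ, ∃ i, ∀ᶠ l in atTop, n l < φ i l) →
      Uncountable ι := by
    intro ι φ hφ
    rw [← not_countable_iff]
    intro hc
    obtain ⟨i0, -⟩ := hφ 0
    have : Nonempty ι := ⟨i0⟩
    obtain ⟨f, hf⟩ := exists_surjective_nat ι
    obtain ⟨i, hi⟩ := hφ fun l => (Finset.range (l + 1)).sup fun j => φ (f j) l
    obtain ⟨j, rfl⟩ := hf i
    obtain ⟨l, hl, hjl⟩ := (hi.and (eventually_ge_atTop j)).exists
    exact absurd hl (not_lt.2 (Finset.le_sup (f := fun j => φ (f j) l)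
      (Finset.mem_range.2 (by omega))))
  refine ⟨?_, fun ι F hF hU => ?_⟩
  · rintro ⟨M, hM, hU⟩
    obtain ⟨φ, hφ⟩ := hdom Unit (fun _ => M) (fun _ => linear_of_chainable hM)
      (fun K hK => by
        obtain ⟨h, hh⟩ := hU K hK
        exact ⟨(), locallyEmbeds_of_homeomorph h hh⟩)
    have := hunc Unit φ hφ
    exact (not_countable_iff.2 this) inferInstance
  · obtain ⟨φ, hφ⟩ := hdom ι F (fun i => linear_of_chainable (hF i)) hU
    exact ⟨hunc ι φ hφ, φ, hφ⟩

end Pool.Agent.Results.MP_82e23a_gt.UniversalFamilies
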